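import Pool.Agent.H43.PJ.M06
import Pool.Agent.H43.PJ.M17

/-!
# The Siegel-Walfisz theorem for primitive characters

`a_n = Λ(n)χ(n)(log n)^k`, `LSeries a = Fk q χ k`.  By `Fk_le k ε'` and `smooth_gen`, for `2 ≤ N ≤ 2z`:
`‖∑ a_n om(n/N)‖ ≤ C q^{ε'} z` (`N = 1`: `a_1 = 0`).  `smooth_to_sharp` with `y = z`,
`H = log(2z)^{k+1}`, `P = 1`, `δ = 1/(2 (log y)^{c+1})`-like: for `√y ≤ z ≤ y`
`‖∑_{n≤z} a_n‖ ≤ C z (q^{ε'} δ^{-3} log z + (log 2z)^{k+1} δ) + ...`.
Abel summation divides by `(log n)^k` (for `n ≤ √y` use the trivial bound `√y log y`); take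
`ε' = 1/(B+1)`, `k = 4c + 10`, so `q^{ε'} ≤ log y`.
For small `y` (bounded) enlarge the constant (`‖sum‖ ≤ y log y`).
-/

set_option autoImplicit false

namespace Pool.Agent.H91.EHA

open Finset
open Pool.Agent.H91.PK

private theorem swI_abel (a : ℕ → ℂ) (f : ℕ → ℝ) (M : ℝ) (z0 y : ℕ) (hz : z0 + 1 ≤ y)
    (hf : ∀ n, z0 + 1 ≤ n → f (n + 1) ≤ f n) (hf0 : ∀ n, z0 + 1 ≤ n → 0 ≤ f n)
    (hA : ∀ z, z ≤ y → ‖∑ n ∈ Icc 1 z, a n‖ ≤ M) :
    ‖∑ n ∈ Ioc z0 y, (f n : ℂ) * a n‖ ≤ 2 * M * f (z0 + 1) := by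
  have hM : 0 ≤ M := le_trans (norm_nonneg _) (hA 0 (by omega))
  have claim : ∀ m, z0 + 1 ≤ m → m ≤ y →
      ‖∑ n ∈ Ioc z0 m, (f n : ℂ) * a n - (f m : ℂ) * ∑ n ∈ Icc 1 m, a n‖ ≤
        M * (2 * f (z0 + 1) - f m) := by
    intro m hm
    induction m, hm using Nat.le_induction with
    | base =>
      intro hy
      rw [Finset.sum_Icc_succ_top (by omega : 1 ≤ z0 + 1), mul_add,
        show Ioc z0 (z0 + 1) = {z0 + 1} by ext x; simp only [mem_Ioc, mem_singleton]; omega,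
        Finset.sum_singleton]
      have e : (f (z0 + 1) : ℂ) * a (z0 + 1) - ((f (z0 + 1) : ℂ) * ∑ n ∈ Icc 1 z0, a n +
          (f (z0 + 1) : ℂ) * a (z0 + 1)) = -((f (z0 + 1) : ℂ) * ∑ n ∈ Icc 1 z0, a n) := by ring
      rw [e, norm_neg, norm_mul, Complex.norm_real, Real.norm_eq_abs,
        abs_of_nonneg (hf0 _ le_rfl)]
      have := mul_le_mul_of_nonneg_left (hA z0 (by omega)) (hf0 _ (le_refl (z0 + 1)))
      linarith
    | succ m hm ih =>
      intro hy
      have ih' := ih (by omega)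
      rw [Finset.sum_Ioc_succ_top (by omega : z0 ≤ m), Finset.sum_Icc_succ_top (by omega : 1 ≤ m + 1)]
      have e : ∑ n ∈ Ioc z0 m, (f n : ℂ) * a n + (f (m + 1) : ℂ) * a (m + 1) -
          (f (m + 1) : ℂ) * (∑ n ∈ Icc 1 m, a n + a (m + 1)) =
          (∑ n ∈ Ioc z0 m, (f n : ℂ) * a n - (f m : ℂ) * ∑ n ∈ Icc 1 m, a n) +
            ((f m - f (m + 1) : ℝ) : ℂ) * ∑ n ∈ Icc 1 m, a n := by
        push_cast; ring
      rw [e]
      refine le_trans (norm_add_le _ _) ?_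
      rw [norm_mul, Complex.norm_real, Real.norm_eq_abs, abs_of_nonneg (sub_nonneg.2 (hf m hm))]
      have := mul_le_mul_of_nonneg_left (hA m (by omega)) (sub_nonneg.2 (hf m hm))
      nlinarith
  have h1 := claim y hz le_rfl
  have h2 : ‖(f y : ℂ) * ∑ n ∈ Icc 1 y, a n‖ ≤ f y * M := by
    rw [norm_mul, Complex.norm_real, Real.norm_eq_abs, abs_of_nonneg (hf0 y hz)]
    exact mul_le_mul_of_nonneg_left (hA y le_rfl) (hf0 y hz)
  have e : ∑ n ∈ Ioc z0 y, (f n : ℂ) * a n =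
      (∑ n ∈ Ioc z0 y, (f n : ℂ) * a n - (f y : ℂ) * ∑ n ∈ Icc 1 y, a n) +
        (f y : ℂ) * ∑ n ∈ Icc 1 y, a n := by ring
  rw [e]
  refine le_trans (norm_add_le _ _) ?_
  linarith

private theorem swI_Lam_le {n : ℕ} : Lam n ≤ Real.log n := ArithmeticFunction.vonMangoldt_le_log

private theorem swI_Lam_nonneg {n : ℕ} : 0 ≤ Lam n := ArithmeticFunction.vonMangoldt_nonneg

private theorem swI_pow_le (m : ℕ) {L : ℝ} (hL : 0 ≤ L) : L ^ m ≤ m.factorial * Real.exp L := by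
  have h := Real.pow_div_factorial_le_exp L hL m
  have h0 : (0 : ℝ) < m.factorial := by exact_mod_cast m.factorial_pos
  rw [div_le_iff₀ h0] at h
  linarith

/-- The partial sums of `Λ(n) χ(n) (log n)^k`. -/
private theorem swI_partial (k : ℕ) (ε : ℝ) (hε : 0 < ε) : ∃ C : ℝ, 0 < C ∧ ∀ q : ℕ, 2 ≤ q →
    ∀ χ : DirichletCharacter ℂ q, χ.IsPrimitive → ∀ (y : ℕ) (δ : ℝ), 2 ≤ y → 0 < δ → δ ≤ 1 / 2 →
      ∀ z ≤ y, ‖∑ n ∈ Icc 1 z, ((Lam n * Real.log n ^ k : ℝ) : ℂ) * χ (n : ZMod q)‖ ≤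
        C * ((q : ℝ) ^ ε * y * (1 / δ ^ 3 + Real.log y) +
          Real.log (2 * y) ^ (k + 1) * (δ * y + Real.log y + 1 / δ ^ 3)) := by
  obtain ⟨C1, hC1, h1⟩ := Fk_le k ε hε
  obtain ⟨C2, hC2, h2⟩ := smooth_gen (20 * (k + 1))
  obtain ⟨C3, hC3, h3⟩ := smooth_to_sharp
  refine ⟨C3 * (2 * C2 * C1 + 1), by positivity, ?_⟩
  intro q hq χ hχ y δ hy hδ hδ2 z hz
  have hq0 : (0 : ℝ) < q := by exact_mod_cast (by omega : 0 < q)
  have hqe : 0 < (q : ℝ) ^ ε := Real.rpow_pos_of_pos hq0 ε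
  have hy0 : (0 : ℝ) < y := by exact_mod_cast (by omega : 0 < y)
  have hly : 0 ≤ Real.log y := Real.log_natCast_nonneg y
  have hl2y : 0 ≤ Real.log (2 * y) := Real.log_nonneg (by
    have : (2 : ℝ) ≤ y := by exact_mod_cast hy
    linarith)
  have hRHS : 0 ≤ C3 * (2 * C2 * C1 + 1) * ((q : ℝ) ^ ε * y * (1 / δ ^ 3 + Real.log y) +
          Real.log (2 * y) ^ (k + 1) * (δ * y + Real.log y + 1 / δ ^ 3)) := by positivity
  set a : ℕ → ℂ := fun n => ((Lam n * Real.log n ^ k : ℝ) : ℂ) * χ (n : ZMod q) with ha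
  have ha1 : a 1 = 0 := by
    simp [ha, Lam]
  rcases Nat.lt_or_ge z 2 with hz2 | hz2
  · have hzero : ∑ n ∈ Icc 1 z, a n = 0 := by
      apply Finset.sum_eq_zero
      intro n hn
      have := Finset.mem_Icc.1 hn
      have hn1 : n = 1 := by omega
      rw [hn1, ha1]
    rw [hzero, norm_zero]
    exact hRHS
  have hnorm : ∀ n, n ≤ 2 * y → ‖a n‖ ≤ Real.log (2 * y) ^ (k + 1) := by
    intro n hn
    rw [ha]
    simp only
    rw [norm_mul, Complex.norm_real, Real.norm_eq_abs]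
    have hl0 : 0 ≤ Real.log n := Real.log_natCast_nonneg n
    have hln : Real.log n ≤ Real.log (2 * y) := by
      rcases Nat.eq_zero_or_pos n with h0 | h0
      · subst h0; simpa using hl2y
      · apply Real.log_le_log (by exact_mod_cast h0)
        have : (n : ℝ) ≤ ((2 * y : ℕ) : ℝ) := by exact_mod_cast hn
        push_cast at this
        exact this
    rw [abs_of_nonneg (mul_nonneg swI_Lam_nonneg (pow_nonneg hl0 k))]
    calc Lam n * Real.log n ^ k * ‖χ (n : ZMod q)‖ ≤ Lam n * Real.log n ^ k * 1 :=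
          mul_le_mul_of_nonneg_left (DirichletCharacter.norm_le_one χ _)
            (mul_nonneg swI_Lam_nonneg (pow_nonneg hl0 k))
      _ ≤ Real.log n * Real.log n ^ k := by
          rw [mul_one]
          exact mul_le_mul_of_nonneg_right swI_Lam_le (pow_nonneg hl0 k)
      _ = Real.log n ^ (k + 1) := by ring
      _ ≤ Real.log (2 * y) ^ (k + 1) := pow_le_pow_left₀ hl0 hln _
  have key := h3 a (2 * C2 * C1 * ((q : ℝ) ^ ε) * y) (Real.log (2 * y) ^ (k + 1)) 1 z δ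
    (by positivity) (by positivity) le_rfl hz2 hδ hδ2 ?_ ?_
  · refine le_trans key ?_
    have hlz : Real.log z ≤ Real.log y := by
      apply Real.log_le_log (by exact_mod_cast (by omega : 0 < z))
      exact_mod_cast hz
    have hzy : (z : ℝ) ≤ y := by exact_mod_cast hz
    have hd3 : 0 < 1 / δ ^ 3 := by positivity
    have e1 : 2 * C2 * C1 * (q : ℝ) ^ ε * y * (1 / δ ^ 3 + Real.log z) ≤
        (2 * C2 * C1 + 1) * ((q : ℝ) ^ ε * y * (1 / δ ^ 3 + Real.log y)) := by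
      have e2 : (q : ℝ) ^ ε * y * (1 / δ ^ 3 + Real.log z) ≤
          (q : ℝ) ^ ε * y * (1 / δ ^ 3 + Real.log y) := by gcongr
      have e3 : 0 ≤ (q : ℝ) ^ ε * y * (1 / δ ^ 3 + Real.log y) := by positivity
      have e4 : 0 ≤ 2 * C2 * C1 := by positivity
      nlinarith [mul_le_mul_of_nonneg_left e2 e4]
    have e5 : Real.log (2 * y) ^ (k + 1) * (δ * z + Real.log z + 1 / δ ^ 3) ≤
        (2 * C2 * C1 + 1) *
          (Real.log (2 * y) ^ (k + 1) * (δ * y + Real.log y + 1 / δ ^ 3)) := by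
      have e6 : Real.log (2 * y) ^ (k + 1) * (δ * z + Real.log z + 1 / δ ^ 3) ≤
          Real.log (2 * y) ^ (k + 1) * (δ * y + Real.log y + 1 / δ ^ 3) := by gcongr
      have e7 : 0 ≤ Real.log (2 * y) ^ (k + 1) * (δ * y + Real.log y + 1 / δ ^ 3) := by positivity
      have e4 : 0 ≤ 2 * C2 * C1 := by positivity
      nlinarith [mul_nonneg e4 e7]
    have e8 := add_le_add e1 e5
    calc C3 * (2 * C2 * C1 * (q : ℝ) ^ ε * y * (1 / δ ^ 3 + Real.log z) +
          Real.log (2 * y) ^ (k + 1) * (δ * z + Real.log z + 1 / δ ^ 3))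
        ≤ C3 * ((2 * C2 * C1 + 1) * ((q : ℝ) ^ ε * y * (1 / δ ^ 3 + Real.log y)) +
          (2 * C2 * C1 + 1) *
          (Real.log (2 * y) ^ (k + 1) * (δ * y + Real.log y + 1 / δ ^ 3))) :=
          mul_le_mul_of_nonneg_left e8 hC3.le
      _ = _ := by ring
  · intro N hN1 hN2
    rcases Nat.lt_or_ge N 2 with hN | hN
    · have hN' : N = 1 := by omega
      subst hN'
      rw [Finset.Icc_self, Finset.sum_singleton, ha1, zero_mul, norm_zero]
      positivity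
    · have h4 := h2 a (C1 * (q : ℝ) ^ ε) (by positivity) (fun s hs hs2 =>
        ⟨Fk_summable q χ k s hs, h1 q hq χ hχ s hs hs2⟩) N hN
      refine le_trans h4 ?_
      have hN3 : (N : ℝ) ≤ 2 * y := by
        have : (N : ℝ) ≤ ((2 * y : ℕ) : ℝ) := by exact_mod_cast (by omega : N ≤ 2 * y)
        push_cast at this
        exact this
      calc C2 * (C1 * (q : ℝ) ^ ε) * N ≤ C2 * (C1 * (q : ℝ) ^ ε) * (2 * y) := by gcongr
        _ = 2 * C2 * C1 * (q : ℝ) ^ ε * y := by ring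
  · intro u v huv hv
    calc ∑ n ∈ Ioc u v, ‖a n‖ ≤ ∑ n ∈ Ioc u v, Real.log (2 * y) ^ (k + 1) := by
          apply Finset.sum_le_sum
          intro n hn
          exact hnorm n (by have := Finset.mem_Ioc.1 hn; omega)
      _ = ((v : ℝ) - u) * Real.log (2 * y) ^ (k + 1) := by
          rw [Finset.sum_const, Nat.card_Ioc, nsmul_eq_mul, Nat.cast_sub huv]
      _ ≤ Real.log (2 * y) ^ (k + 1) * ((v : ℝ) - u + 1) := by
          have : 0 ≤ Real.log (2 * y) ^ (k + 1) := by positivity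
          nlinarith

theorem siegel_walfisz (B c : ℕ) : ∃ C : ℝ, 0 < C ∧ ∀ q : ℕ, 2 ≤ q →
    ∀ χ : DirichletCharacter ℂ q, χ.IsPrimitive → ∀ y : ℕ, 2 ≤ y → (q : ℝ) ≤ Real.log y ^ B →
      ‖∑ n ∈ Icc 1 y, ((Lam n : ℝ) : ℂ) * χ (n : ZMod q)‖ ≤ C * y / Real.log y ^ c := by
  obtain ⟨C, hC, hpart⟩ := swI_partial (4 * c + 4) (1 / ((B : ℝ) + 1)) (by positivity)
  set k : ℕ := 4 * c + 4 with hk
  refine ⟨2 ^ (c + 1) * (c + 1).factorial + 2 ^ (k + 1) * (C * (9 + 2 ^ k +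
    9 * 2 ^ (k + 1) * k.factorial)), by positivity, ?_⟩
  intro q hq χ hχ y hy hqy
  have hq2 : (2 : ℝ) ≤ q := by exact_mod_cast hq
  have hy2 : (2 : ℝ) ≤ y := by exact_mod_cast hy
  have hy0 : (0 : ℝ) < y := by linarith
  set L : ℝ := Real.log y with hL
  have hL0 : 0 ≤ L := Real.log_natCast_nonneg y
  have hL1 : 1 < L := by
    by_contra h
    have := pow_le_one₀ (n := B) hL0 (not_lt.1 h)
    linarith
  have hLpos : 0 < L := by linarith
  -- the power of q
  have hqe : (q : ℝ) ^ (1 / ((B : ℝ) + 1)) ≤ L := by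
    calc (q : ℝ) ^ (1 / ((B : ℝ) + 1)) ≤ (L ^ B) ^ (1 / ((B : ℝ) + 1)) :=
          Real.rpow_le_rpow (by linarith) hqy (by positivity)
      _ = L ^ ((B : ℝ) * (1 / ((B : ℝ) + 1))) := by
          rw [← Real.rpow_natCast L B, ← Real.rpow_mul hL0]
      _ ≤ L ^ (1 : ℝ) := by
          apply Real.rpow_le_rpow_of_exponent_le hL1.le
          rw [mul_one_div, div_le_one (by positivity)]
          linarith
      _ = L := Real.rpow_one L
  set δ : ℝ := 1 / (2 * L ^ (c + 1)) with hδ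
  have hLc : 1 ≤ L ^ (c + 1) := one_le_pow₀ hL1.le
  have hδ0 : 0 < δ := by positivity
  have hδ2 : δ ≤ 1 / 2 := by
    rw [hδ]
    apply one_div_le_one_div_of_le (by norm_num)
    linarith
  have hδ3 : 1 / δ ^ 3 = 8 * L ^ (3 * c + 3) := by
    rw [hδ, one_div, one_div, inv_pow, inv_inv, mul_pow, ← pow_mul]
    rw [show (c + 1) * 3 = 3 * c + 3 by ring]
    norm_num
  have hl2y : Real.log (2 * y) ≤ 2 * L := by
    rw [Real.log_mul (by norm_num) (by positivity)]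
    have : Real.log 2 ≤ L := Real.log_le_log (by norm_num) hy2
    linarith
  have hl2y0 : 0 ≤ Real.log (2 * y) := Real.log_nonneg (by linarith)
  -- the bound for the partial sums
  set M : ℝ := C * (L * y * (9 * L ^ (3 * c + 3)) +
    (2 * L) ^ (k + 1) * (δ * y + 9 * L ^ (3 * c + 3))) with hM
  have hL33 : L ≤ L ^ (3 * c + 3) := by
    calc L = L ^ 1 := (pow_one L).symm
      _ ≤ L ^ (3 * c + 3) := pow_le_pow_right₀ hL1.le (by omega)
  have hA : ∀ z ≤ y, ‖∑ n ∈ Icc 1 z, ((Lam n * Real.log n ^ k : ℝ) : ℂ) * χ (n : ZMod q)‖ ≤ M := by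
    intro z hz
    refine le_trans (hpart q hq χ hχ y δ hy hδ0 hδ2 z hz) ?_
    rw [hM, hδ3]
    apply mul_le_mul_of_nonneg_left _ hC.le
    apply add_le_add
    · have e1 : 8 * L ^ (3 * c + 3) + L ≤ 9 * L ^ (3 * c + 3) := by linarith
      have e2 : (q : ℝ) ^ (1 / ((B : ℝ) + 1)) * y ≤ L * y :=
        mul_le_mul_of_nonneg_right hqe hy0.le
      exact mul_le_mul e2 e1 (by positivity) (by positivity)
    · have e1 : δ * y + L + 8 * L ^ (3 * c + 3) ≤ δ * y + 9 * L ^ (3 * c + 3) := by linarith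
      exact mul_le_mul (pow_le_pow_left₀ hl2y0 hl2y _) e1 (by positivity) (by positivity)
  -- Abel summation
  set z0 : ℕ := Nat.sqrt y with hz0
  have hz1 : 1 ≤ z0 := Nat.sqrt_pos.2 (by omega)
  have hzy : z0 + 1 ≤ y := by
    have : z0 < y := Nat.sqrt_lt_self (by omega)
    omega
  have hlogpos : ∀ n : ℕ, z0 + 1 ≤ n → 0 < Real.log n := by
    intro n hn
    exact Real.log_pos (by exact_mod_cast (by omega : 1 < n))
  have hab := swI_abel (fun n => ((Lam n * Real.log n ^ k : ℝ) : ℂ) * χ (n : ZMod q))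
    (fun n => 1 / Real.log n ^ k) M z0 y hzy
    (by
      intro n hn
      apply one_div_le_one_div_of_le (pow_pos (hlogpos n hn) k)
      apply pow_le_pow_left₀ (hlogpos n hn).le
      apply Real.log_le_log (by exact_mod_cast (by omega : 0 < n))
      push_cast
      linarith)
    (by
      intro n hn
      have := hlogpos n hn
      positivity)
    hA
  have hsplit : ∑ n ∈ Icc 1 y, ((Lam n : ℝ) : ℂ) * χ (n : ZMod q) =
      ∑ n ∈ Icc 1 z0, ((Lam n : ℝ) : ℂ) * χ (n : ZMod q) +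
      ∑ n ∈ Ioc z0 y, ((1 / Real.log n ^ k : ℝ) : ℂ) *
        (((Lam n * Real.log n ^ k : ℝ) : ℂ) * χ (n : ZMod q)) := by
    have e1 : Icc 1 y = Icc 1 z0 ∪ Ioc z0 y := by
      ext n; simp only [mem_Icc, mem_union, mem_Ioc]; omega
    have e2 : Disjoint (Icc 1 z0) (Ioc z0 y) := by
      rw [Finset.disjoint_left]
      intro n h1 h2
      have := Finset.mem_Icc.1 h1
      have := Finset.mem_Ioc.1 h2
      omega
    rw [e1, Finset.sum_union e2]
    congr 1
    apply Finset.sum_congr rfl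
    intro n hn
    have hn' := hlogpos n (by have := Finset.mem_Ioc.1 hn; omega)
    rw [← mul_assoc, ← Complex.ofReal_mul]
    congr 2
    field_simp
  have hz0r : (z0 : ℝ) ≤ Real.sqrt y := Real.nat_sqrt_le_real_sqrt
  have hz0r' : Real.sqrt y ≤ (z0 : ℝ) + 1 := Real.real_sqrt_le_nat_sqrt_succ
  have hfirst : ‖∑ n ∈ Icc 1 z0, ((Lam n : ℝ) : ℂ) * χ (n : ZMod q)‖ ≤ Real.sqrt y * L := by
    calc ‖∑ n ∈ Icc 1 z0, ((Lam n : ℝ) : ℂ) * χ (n : ZMod q)‖
        ≤ ∑ n ∈ Icc 1 z0, ‖((Lam n : ℝ) : ℂ) * χ (n : ZMod q)‖ := norm_sum_le _ _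
      _ ≤ ∑ n ∈ Icc 1 z0, L := by
          apply Finset.sum_le_sum
          intro n hn
          have hn' := Finset.mem_Icc.1 hn
          rw [norm_mul, Complex.norm_real, Real.norm_eq_abs, abs_of_nonneg swI_Lam_nonneg]
          calc Lam n * ‖χ (n : ZMod q)‖ ≤ Lam n * 1 :=
                mul_le_mul_of_nonneg_left (DirichletCharacter.norm_le_one χ _) swI_Lam_nonneg
            _ ≤ Real.log n := by rw [mul_one]; exact swI_Lam_le
            _ ≤ L := by
                apply Real.log_le_log (by exact_mod_cast (by omega : 0 < n))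
                exact_mod_cast (by omega : n ≤ y)
      _ = z0 * L := by rw [Finset.sum_const, Nat.card_Icc, nsmul_eq_mul]; simp
      _ ≤ Real.sqrt y * L := mul_le_mul_of_nonneg_right hz0r hL0
  have hlog0 : L / 2 ≤ Real.log ((z0 + 1 : ℕ) : ℝ) := by
    have e1 : Real.log (Real.sqrt y) = L / 2 := Real.log_sqrt hy0.le
    rw [← e1]
    apply Real.log_le_log (Real.sqrt_pos.2 hy0)
    push_cast
    exact hz0r'
  have hM0 : 0 ≤ M := by positivity
  have hsecond : ‖∑ n ∈ Ioc z0 y, ((1 / Real.log n ^ k : ℝ) : ℂ) *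
        (((Lam n * Real.log n ^ k : ℝ) : ℂ) * χ (n : ZMod q))‖ ≤ 2 ^ (k + 1) * M / L ^ k := by
    refine le_trans hab ?_
    have e1 : 1 / Real.log ((z0 + 1 : ℕ) : ℝ) ^ k ≤ 1 / (L / 2) ^ k := by
      apply one_div_le_one_div_of_le (by positivity)
      exact pow_le_pow_left₀ (by positivity) hlog0 k
    calc 2 * M * (1 / Real.log ((z0 + 1 : ℕ) : ℝ) ^ k) ≤ 2 * M * (1 / (L / 2) ^ k) :=
          mul_le_mul_of_nonneg_left e1 (by positivity)
      _ = 2 ^ (k + 1) * M / L ^ k := by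
          rw [div_pow, pow_succ]
          field_simp
          try ring
  -- final estimates
  have hexp : Real.exp L = y := Real.exp_log hy0
  have hexp2 : Real.exp (L / 2) = Real.sqrt y := by
    rw [show L / 2 = Real.log (Real.sqrt y) from (Real.log_sqrt hy0.le).symm,
      Real.exp_log (Real.sqrt_pos.2 hy0)]
  have hsq : Real.sqrt y * Real.sqrt y = y := Real.mul_self_sqrt hy0.le
  have hsq0 : 0 < Real.sqrt y := Real.sqrt_pos.2 hy0
  have f1 : Real.sqrt y * L * L ^ c ≤ 2 ^ (c + 1) * (c + 1).factorial * y := by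
    have e1 := swI_pow_le (c + 1) (L := L / 2) (by positivity)
    rw [hexp2, div_pow, div_le_iff₀ (by positivity)] at e1
    calc Real.sqrt y * L * L ^ c = Real.sqrt y * L ^ (c + 1) := by ring
      _ ≤ Real.sqrt y * ((c + 1).factorial * Real.sqrt y * 2 ^ (c + 1)) :=
          mul_le_mul_of_nonneg_left e1 hsq0.le
      _ = 2 ^ (c + 1) * (c + 1).factorial * (Real.sqrt y * Real.sqrt y) := by ring
      _ = 2 ^ (c + 1) * (c + 1).factorial * y := by rw [hsq]
  have f2 : M * L ^ c ≤ L ^ k * (C * (9 + 2 ^ k + 9 * 2 ^ (k + 1) * k.factorial)) * y := by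
    have e1 := swI_pow_le k hL0
    rw [hexp] at e1
    have g1 : L * y * (9 * L ^ (3 * c + 3)) * L ^ c = L ^ k * 9 * y := by
      rw [hk]; ring
    have g2 : (2 * L) ^ (k + 1) * (δ * y) * L ^ c = L ^ k * 2 ^ k * y := by
      rw [hδ, mul_pow]
      have : L ^ (c + 1) ≠ 0 := by positivity
      field_simp
      ring
    have g3 : (2 * L) ^ (k + 1) * (9 * L ^ (3 * c + 3)) * L ^ c ≤
        L ^ k * (9 * 2 ^ (k + 1) * k.factorial) * y := by
      calc (2 * L) ^ (k + 1) * (9 * L ^ (3 * c + 3)) * L ^ c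
          = L ^ k * (9 * 2 ^ (k + 1)) * L ^ (4 * c + 4) := by
            rw [mul_pow]; ring
        _ ≤ L ^ k * (9 * 2 ^ (k + 1)) * (k.factorial * y) :=
            mul_le_mul_of_nonneg_left e1 (by positivity)
        _ = L ^ k * (9 * 2 ^ (k + 1) * k.factorial) * y := by ring
    have g4 : M * L ^ c = C * (L * y * (9 * L ^ (3 * c + 3)) * L ^ c +
        (2 * L) ^ (k + 1) * (δ * y) * L ^ c +
        (2 * L) ^ (k + 1) * (9 * L ^ (3 * c + 3)) * L ^ c) := by
      rw [hM]; ring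
    rw [g4, g1, g2]
    calc C * (L ^ k * 9 * y + L ^ k * 2 ^ k * y +
          (2 * L) ^ (k + 1) * (9 * L ^ (3 * c + 3)) * L ^ c)
        ≤ C * (L ^ k * 9 * y + L ^ k * 2 ^ k * y +
          L ^ k * (9 * 2 ^ (k + 1) * k.factorial) * y) := by
          apply mul_le_mul_of_nonneg_left _ hC.le
          linarith
      _ = L ^ k * (C * (9 + 2 ^ k + 9 * 2 ^ (k + 1) * k.factorial)) * y := by ring
  rw [hsplit]
  refine le_trans (norm_add_le _ _) ?_
  refine le_trans (add_le_add hfirst hsecond) ?_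
  rw [le_div_iff₀ (by positivity), add_mul, add_mul]
  apply add_le_add f1
  rw [div_mul_eq_mul_div, div_le_iff₀ (by positivity)]
  calc 2 ^ (k + 1) * M * L ^ c = 2 ^ (k + 1) * (M * L ^ c) := by ring
    _ ≤ 2 ^ (k + 1) * (L ^ k * (C * (9 + 2 ^ k + 9 * 2 ^ (k + 1) * k.factorial)) * y) :=
        mul_le_mul_of_nonneg_left f2 (by positivity)
    _ = 2 ^ (k + 1) * (C * (9 + 2 ^ k + 9 * 2 ^ (k + 1) * k.factorial)) * y * L ^ k := by ring

end Pool.Agent.H91.EHA
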